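import Pool.Agent.LPT.Main3
import Pool.Agent.LPU.Upper

/-!
`k(d) = ⌊(2d + 3) / 5⌋` for all `d ≥ 2`: the graph of every `d`-polytope is `⌊(2d + 3) / 5⌋`-linked, and for no larger
`k` are the graphs of all `d`-polytopes `k`-linked.
-/

set_option autoImplicit false

namespace Pool.Agent.Results.MP_c76e9d_co.Exact

open Pool.Agent.LPG

/-- For every `d ≥ 2`, `⌊(2d + 3) / 5⌋` is the largest `k` such that the graph of every `d`-dimensional polytope in
`E^d` is `k`-linked. -/
theorem result {d : ℕ} (hd : 2 ≤ d) :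
    IsGreatest {k : ℕ | ∀ V : Finset (Eu d), ConvexPos V →
      affineSpan ℝ (V : Set (Eu d)) = ⊤ → IsKLinked (polyGraph V) k} ((2 * d + 3) / 5) :=
  Pool.Agent.LPU.isGreatest_of hd fun _ V hV hfull hk => theoremIII V hV hfull hk

end Pool.Agent.Results.MP_c76e9d_co.Exact
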