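import Pool.Agent.LPG.Main

/-!
Affinely independent terminals in the graph of a polytope are linked in every pairing, by disjoint paths which avoid a
prescribed flat.
-/

set_option autoImplicit false

namespace Pool.Agent.Results.MP_c76e9d_co.IndependentTerminals

open Pool.Agent.LPG

/-- `V` is the vertex set of a polytope in Euclidean space, `A` a set of points, and no `s i`, `t i` lies in the
affine hull of `A` and the other `2k - 1` terminals. Then there are `k` disjoint paths in the graph of the polytope
joining `s i` and `t i`, none of whose edges meets the affine hull of `A`. -/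
theorem result {d : ℕ} (V : Finset (Eu d)) (hV : ConvexPos V) (A : Set (Eu d)) {k : ℕ}
    (s t : Fin k → V)
    (hT : ∀ j : Fin k ⊕ Fin k, ((Sum.elim s t j : V) : Eu d) ∉
      affineSpan ℝ (A ∪ (fun i => ((Sum.elim s t i : V) : Eu d)) '' {i | i ≠ j})) :
    ∃ p : ∀ i, (polyGraph V).Walk (s i) (t i), (∀ i, (p i).IsPath) ∧
      (∀ i j, i ≠ j → List.Disjoint (p i).support (p j).support) ∧
      ∀ i, ∀ u v : V, s(u, v) ∈ (p i).edges →
        Disjoint (segment ℝ (u : Eu d) v) (affineSpan ℝ A : Set (Eu d)) :=
  theoremI V hV A s t hT

end Pool.Agent.Results.MP_c76e9d_co.IndependentTerminals
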